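import Mathlib

open SimpleGraph

noncomputable section

namespace Pool.Agent.Q164.UT

section Join

variable {V W : Type} (T : SimpleGraph V) (S : SimpleGraph W) (a : V) (b : W)

/-- join two graphs by an edge -/
def join : SimpleGraph (V ⊕ W) := T.sum S ⊔ edge (.inl a) (.inr b)

theorem join_inl (v w : V) : (join T S a b).Adj (.inl v) (.inl w) ↔ T.Adj v w := by
  simp [join, edge_adj]

theorem join_inr (v w : W) : (join T S a b).Adj (.inr v) (.inr w) ↔ S.Adj v w := by
  simp [join, edge_adj]

theorem join_inl_inr (v : V) (w : W) :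
    (join T S a b).Adj (.inl v) (.inr w) ↔ v = a ∧ w = b := by
  simp [join, edge_adj]

theorem join_inr_inl (v : V) (w : W) :
    (join T S a b).Adj (.inr w) (.inl v) ↔ v = a ∧ w = b := by
  rw [adj_comm, join_inl_inr]

/-- left embedding -/
def joinInl : T ↪g join T S a b where
  toFun := .inl
  inj' := Sum.inl_injective
  map_rel_iff' := by
    intro x y
    exact join_inl T S a b x y

/-- right embedding -/
def joinInr : S ↪g join T S a b where
  toFun := .inr
  inj' := Sum.inr_injective
  map_rel_iff' := by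
    intro x y
    exact join_inr T S a b x y

variable {T S}

theorem join_isTree [Finite V] [Finite W] (hT : T.IsTree) (hS : S.IsTree) :
    (join T S a b).IsTree := by
  have h1 := (isTree_iff_connected_and_card.1 hT)
  have h2 := (isTree_iff_connected_and_card.1 hS)
  rw [isTree_iff_connected_and_card]
  refine ⟨Connected.sum_sup_edge h1.1 h2.1, ?_⟩
  have h3 : (join T S a b).edgeSet = insert s(.inl a, .inr b) (T.sum S).edgeSet := by
    rw [join, edgeSet_sup, edgeSet_edge_of_ne Sum.inl_ne_inr, Set.union_comm, Set.insert_eq]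
  have h4 : s((Sum.inl a : V ⊕ W), .inr b) ∉ (T.sum S).edgeSet := by
    rw [mem_edgeSet]
    exact not_adj_sum_inl_inr a b
  have h5 : Nat.card (T.sum S).edgeSet = Nat.card T.edgeSet + Nat.card S.edgeSet := by
    rw [Nat.card_congr (edgeSetSumEquiv (G := T) (H := S)), Nat.card_sum]
  rw [Nat.card_coe_set_eq, h3, Set.ncard_insert_of_notMem h4 (Set.toFinite _),
    ← Nat.card_coe_set_eq, h5, Nat.card_sum, ← h1.2, ← h2.2]
  ring

end Join

/-- degree -/
def dg {V : Type} (T : SimpleGraph V) (v : V) : ℕ := (T.neighborSet v).ncard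

section Degrees

variable {V W : Type} [Finite V] [Finite W] (T : SimpleGraph V) (S : SimpleGraph W) (a : V) (b : W)

theorem dg_inl_ne {v : V} (h : v ≠ a) : dg (join T S a b) (.inl v) ≤ dg T v := by
  have : (join T S a b).neighborSet (.inl v) = Sum.inl '' (T.neighborSet v) := by
    ext x
    rcases x with x | x
    · simp [join_inl]
    · simp [join_inl_inr, h]
  rw [dg, this, dg]
  exact Set.ncard_image_le (Set.toFinite _)

theorem dg_inl (v : V) : dg (join T S a b) (.inl v) ≤ dg T v + 1 := by
  have : (join T S a b).neighborSet (.inl v) ⊆ insert (.inr b) (Sum.inl '' (T.neighborSet v)) := by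
    intro x hx
    rcases x with x | x
    · have : (join T S a b).Adj (.inl v) (.inl x) := hx
      rw [join_inl] at this
      exact Or.inr ⟨x, this, rfl⟩
    · have : (join T S a b).Adj (.inl v) (.inr x) := hx
      rw [join_inl_inr] at this
      left
      rw [this.2]
  calc dg (join T S a b) (.inl v) ≤ (insert (.inr b) (Sum.inl '' (T.neighborSet v))).ncard :=
        Set.ncard_le_ncard this (Set.toFinite _)
    _ ≤ (Sum.inl '' (T.neighborSet v) : Set (V ⊕ W)).ncard + 1 := Set.ncard_insert_le _ _
    _ ≤ _ := by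
      gcongr
      exact Set.ncard_image_le (Set.toFinite _)

theorem dg_inr (w : W) : dg (join T S a b) (.inr w) ≤ dg S w + 1 := by
  have : (join T S a b).neighborSet (.inr w) ⊆ insert (.inl a) (Sum.inr '' (S.neighborSet w)) := by
    intro x hx
    rcases x with x | x
    · have : (join T S a b).Adj (.inr w) (.inl x) := hx
      rw [join_inr_inl] at this
      left
      rw [this.1]
    · have : (join T S a b).Adj (.inr w) (.inr x) := hx
      rw [join_inr] at this
      exact Or.inr ⟨x, this, rfl⟩
  calc dg (join T S a b) (.inr w) ≤ (insert (.inl a) (Sum.inr '' (S.neighborSet w))).ncard :=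
        Set.ncard_le_ncard this (Set.toFinite _)
    _ ≤ (Sum.inr '' (S.neighborSet w) : Set (V ⊕ W)).ncard + 1 := Set.ncard_insert_le _ _
    _ ≤ _ := by
      gcongr
      exact Set.ncard_image_le (Set.toFinite _)

theorem dg_inr_ne {w : W} (h : w ≠ b) : dg (join T S a b) (.inr w) ≤ dg S w := by
  have : (join T S a b).neighborSet (.inr w) = Sum.inr '' (S.neighborSet w) := by
    ext x
    rcases x with x | x
    · simp [join_inr_inl, h]
    · simp [join_inr]
  rw [dg, this, dg]
  exact Set.ncard_image_le (Set.toFinite _)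

end Degrees

section Count

/-- the `k`-subtrees of `T` -/
def KS {V : Type} (T : SimpleGraph V) (k : ℕ) : Set (Finset V) :=
  {U | U.card = k ∧ (T.induce (U : Set V)).Connected}

/-- the `k`-subtrees of `T` isomorphic to `S` -/
def KI {V W : Type} (T : SimpleGraph V) (S : SimpleGraph W) (k : ℕ) : Set (Finset V) :=
  {U | U.card = k ∧ (T.induce (U : Set V)).Connected ∧ Nonempty (T.induce (U : Set V) ≃g S)}

/-- induced subgraphs are preserved by embeddings -/
theorem emb_iso {V W : Type} {T : SimpleGraph V} {T' : SimpleGraph W} (f : T ↪g T')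
    (U : Finset V) :
    Nonempty (T'.induce ((U.map f.toEmbedding : Finset W) : Set W) ≃g T.induce (U : Set V)) := by
  classical
  let e : (U : Set V) ≃ ((U.map f.toEmbedding : Finset W) : Set W) :=
    Equiv.ofBijective (fun x => ⟨f x, by
      rw [Finset.mem_coe, Finset.mem_map]
      exact ⟨x, x.2, rfl⟩⟩) (by
      constructor
      · intro x y h
        have := congrArg Subtype.val h
        exact Subtype.ext (f.injective this)
      · rintro ⟨y, hy⟩
        rw [Finset.mem_coe, Finset.mem_map] at hy
        obtain ⟨x, hx, rfl⟩ := hy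
        exact ⟨⟨x, hx⟩, rfl⟩)
  refine ⟨(RelIso.symm ⟨e, ?_⟩ : _ ≃g _)⟩
  intro x y
  show T'.Adj (f x) (f y) ↔ T.Adj x y
  exact f.map_adj_iff

theorem KI_map {V W X : Type} {T : SimpleGraph V} {T' : SimpleGraph W} (f : T ↪g T')
    (S : SimpleGraph X) (k : ℕ) {U : Finset V} (hU : U ∈ KI T S k) :
    U.map f.toEmbedding ∈ KI T' S k := by
  obtain ⟨h1, h2, ⟨h3⟩⟩ := hU
  obtain ⟨e⟩ := emb_iso f U
  refine ⟨by rw [Finset.card_map, h1], e.connected_iff.2 h2, ⟨e.trans h3⟩⟩

theorem KI_mono {V W X : Type} [Finite W] {T : SimpleGraph V} {T' : SimpleGraph W} (f : T ↪g T')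
    (S : SimpleGraph X) (k : ℕ) : (KI T S k).ncard ≤ (KI T' S k).ncard := by
  rw [← Set.ncard_image_of_injective (KI T S k) (Finset.map_injective f.toEmbedding)]
  refine Set.ncard_le_ncard ?_ (Set.toFinite _)
  rintro _ ⟨U, hU, rfl⟩
  exact KI_map f S k hU

theorem KI_add {V W X : Type} [Finite V] [Finite W] {T : SimpleGraph V} {T' : SimpleGraph W}
    (f : T ↪g T') (N : ℕ) (S : SimpleGraph (Fin (N + 1))) (hS : S.Connected) (g : S ↪g T')
    (hfg : ∀ x y, f x ≠ g y) :
    (KI T S (N + 1)).ncard + 1 ≤ (KI T' S (N + 1)).ncard := by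
  classical
  have hnew : (Finset.univ : Finset (Fin (N + 1))).map g.toEmbedding ∈ KI T' S (N + 1) := by
    refine KI_map g S (N + 1) ⟨by simp, ?_, ?_⟩
    · have e : S.induce ((Finset.univ : Finset (Fin (N + 1))) : Set (Fin (N + 1))) ≃g S := by
        rw [Finset.coe_univ]
        exact induceUnivIso S
      exact e.connected_iff.2 hS
    · rw [Finset.coe_univ]
      exact ⟨induceUnivIso S⟩
  have hnot : (Finset.univ : Finset (Fin (N + 1))).map g.toEmbedding ∉
      (fun U : Finset V => U.map f.toEmbedding) '' KI T S (N + 1) := by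
    rintro ⟨U, hU, h⟩
    have h1 : g 0 ∈ (Finset.univ : Finset (Fin (N + 1))).map g.toEmbedding :=
      Finset.mem_map_of_mem _ (Finset.mem_univ _)
    rw [← h] at h1
    simp only [Finset.mem_map] at h1
    obtain ⟨x, _, hx⟩ := h1
    exact hfg x 0 hx
  rw [← Set.ncard_image_of_injective (KI T S (N + 1)) (Finset.map_injective f.toEmbedding),
    ← Set.ncard_insert_of_notMem hnot (Set.toFinite _)]
  refine Set.ncard_le_ncard ?_ (Set.toFinite _)
  rintro U (rfl | ⟨U, hU, rfl⟩)
  · exact hnew
  · exact KI_map f S _ hU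

end Count

/-- data: a tree on `N + 1` vertices -/
abbrev P := Σ N : ℕ, {S : SimpleGraph (Fin (N + 1)) // S.IsTree}

/-- cost of adding a tree -/
def cost (k : ℕ) (p : P) : ℕ := 3 ^ k + 2 ^ k + (p.1 + 2) ^ (k + 1)

theorem dg_le {N : ℕ} (S : SimpleGraph (Fin (N + 1))) (x : Fin (N + 1)) : dg S x ≤ N + 1 := by
  have := Set.ncard_le_ncard (Set.subset_univ (S.neighborSet x)) (Set.toFinite _)
  rwa [Set.ncard_univ, Nat.card_fin] at this

theorem build [DecidableEq P] (M : Multiset P) :
    ∃ (V : Type) (_ : Fintype V) (T : SimpleGraph V) (e : V), T.IsTree ∧ dg T e ≤ 2 ∧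
      (∀ k, ∑ v, dg T v ^ k ≤ 1 + (M.map (cost k)).sum) ∧
      (∀ p : P, M.count p ≤ (KI T p.2.1 (p.1 + 1)).ncard) ∧ M.card ≤ Fintype.card V := by
  classical
  induction M using Multiset.induction_on with
  | empty =>
    refine ⟨Unit, inferInstance, ⊥, (), IsTree.of_subsingleton, ?_, ?_, ?_, ?_⟩
    · simp [dg]
    · intro k
      simp only [Finset.univ_unique, Finset.sum_singleton, Multiset.map_zero, Multiset.sum_zero,
        add_zero]
      have : dg (⊥ : SimpleGraph Unit) default = 0 := by simp [dg]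
      rw [this]
      rcases k with _ | k
      · simp
      · simp
    · intro p
      simp
    · simp
  | cons p M ih =>
    obtain ⟨V, _, T, e, hT, he, hcost, hcount, hcard⟩ := ih
    obtain ⟨N, S, hS⟩ := p
    set S' : SimpleGraph (Unit ⊕ Fin (N + 1)) := join (⊥ : SimpleGraph Unit) S () 0 with hS'
    have hS't : S'.IsTree := join_isTree () 0 IsTree.of_subsingleton hS
    set T' : SimpleGraph (V ⊕ (Unit ⊕ Fin (N + 1))) := join T S' e (.inl ()) with hT'
    have hT't : T'.IsTree := join_isTree e (.inl ()) hT hS't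
    have d1 : dg S' (.inl ()) ≤ 1 := by
      have := dg_inl (⊥ : SimpleGraph Unit) S () 0 ()
      have h0 : dg (⊥ : SimpleGraph Unit) () = 0 := by simp [dg]
      rw [h0] at this
      exact this
    have d2 : dg T' (.inr (.inl ())) ≤ 2 := by
      have : dg T' (.inr (.inl ())) ≤ dg S' (.inl ()) + 1 := dg_inr T S' e (.inl ()) (.inl ())
      omega
    have d3 : ∀ x, dg T' (.inr (.inr x)) ≤ N + 2 := by
      intro x
      have h1 := dg_inr_ne T S' e (.inl ()) (w := .inr x) (by simp)
      have h2 := dg_inr (⊥ : SimpleGraph Unit) S () 0 x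
      have h3 := dg_le S x
      exact h1.trans (h2.trans (by omega))
    have d4 : ∀ (k : ℕ) v, dg T' (.inl v) ^ k ≤ dg T v ^ k + if v = e then 3 ^ k else 0 := by
      intro k v
      by_cases hv : v = e
      · subst hv
        rw [if_pos rfl]
        have h1 : dg T' (.inl v) ≤ dg T v + 1 := dg_inl T S' v (.inl ()) v
        have h2 : dg T' (.inl v) ^ k ≤ 3 ^ k := Nat.pow_le_pow_left (by omega) k
        omega
      · rw [if_neg hv, add_zero]
        exact Nat.pow_le_pow_left (dg_inl_ne T S' e (.inl ()) hv) k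
    refine ⟨V ⊕ (Unit ⊕ Fin (N + 1)), inferInstance, T', .inr (.inl ()), hT't, d2, ?_, ?_, ?_⟩
    · intro k
      rw [Fintype.sum_sum_type, Fintype.sum_sum_type, Multiset.map_cons, Multiset.sum_cons]
      have h1 : ∑ v, dg T' (.inl v) ^ k ≤ ∑ v, dg T v ^ k + 3 ^ k := by
        refine (Finset.sum_le_sum fun v _ => d4 k v).trans ?_
        rw [Finset.sum_add_distrib, Finset.sum_ite_eq' Finset.univ e]
        simp
      have h2 : ∑ u : Unit, dg T' (.inr (.inl u)) ^ k ≤ 2 ^ k := by
        simp only [Finset.univ_unique, Finset.sum_singleton]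
        exact Nat.pow_le_pow_left d2 k
      have h3 : ∑ x : Fin (N + 1), dg T' (.inr (.inr x)) ^ k ≤ (N + 2) ^ (k + 1) := by
        calc ∑ x : Fin (N + 1), dg T' (.inr (.inr x)) ^ k ≤ ∑ _x : Fin (N + 1), (N + 2) ^ k :=
              Finset.sum_le_sum fun x _ => Nat.pow_le_pow_left (d3 x) k
          _ = (N + 1) * (N + 2) ^ k := by simp
          _ ≤ (N + 2) * (N + 2) ^ k := by gcongr; omega
          _ = _ := by ring
      have h4 := hcost k
      have h5 : cost k ⟨N, ⟨S, hS⟩⟩ = 3 ^ k + 2 ^ k + (N + 2) ^ (k + 1) := rfl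
      omega
    · intro q
      by_cases hq : q = ⟨N, S, hS⟩
      · subst hq
        rw [Multiset.count_cons_self]
        refine (Nat.add_le_add_right (hcount _) 1).trans ?_
        refine KI_add (X := Unit) (joinInl T S' e (.inl ())) N S hS.connected
          ((joinInr (⊥ : SimpleGraph Unit) S () 0).trans (joinInr T S' e (.inl ()))) ?_
        intro x y h
        exact Sum.inl_ne_inr h
      · rw [Multiset.count_cons_of_ne hq]
        exact (hcount q).trans (KI_mono (joinInl T S' e (.inl ())) _ _)
    · rw [Multiset.card_cons, Fintype.card_sum, Fintype.card_sum, Fintype.card_fin,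
        Fintype.card_unit]
      omega

end Pool.Agent.Q164.UT
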