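import Pool.Agent.Q164.UT.Base

open SimpleGraph

noncomputable section

namespace Pool.Agent.Q164.UT

section Growth

open Classical

variable {V : Type} {T : SimpleGraph V}

theorem crossing {U U' : Finset V} (hU : (T.induce (U : Set V)).Connected) (h1 : U' ⊆ U)
    (hne : U'.Nonempty) (hne' : U' ≠ U) : ∃ a ∈ U', ∃ b ∈ U, b ∉ U' ∧ T.Adj a b := by
  obtain ⟨x, hx⟩ := hne
  obtain ⟨y, hy, hy'⟩ : ∃ y ∈ U, y ∉ U' := by
    by_contra hcon
    push Not at hcon
    exact hne' (Finset.Subset.antisymm h1 hcon)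
  obtain ⟨p⟩ := hU.preconnected ⟨x, h1 hx⟩ ⟨y, hy⟩
  obtain ⟨d, _, hd1, hd2⟩ := p.exists_boundary_dart {z | (z : V) ∈ U'} hx hy'
  exact ⟨d.fst, hd1, d.snd, d.snd.2, hd2, d.adj⟩

theorem conn_insert {U' : Finset V} (h : (T.induce (U' : Set V)).Connected) {a b : V}
    (ha : a ∈ U') (hab : T.Adj a b) :
    (T.induce ((insert b U' : Finset V) : Set V)).Connected := by
  have h2 : (T.induce ((U' : Set V) ∪ {a, b})).Connected :=
    induce_union_connected h.preconnected (induce_pair_connected_of_adj hab).preconnected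
      ⟨a, ha, by simp⟩
  have h3 : ((insert b U' : Finset V) : Set V) = (U' : Set V) ∪ {a, b} := by
    ext z
    simp only [Finset.coe_insert, Set.mem_insert_iff, Finset.mem_coe, Set.mem_union,
      Set.mem_singleton_iff]
    constructor
    · rintro (rfl | h)
      · exact Or.inr (Or.inr rfl)
      · exact Or.inl h
    · rintro (h | rfl | rfl)
      · exact Or.inr h
      · exact Or.inr ha
      · exact Or.inl rfl
  rw [h3]
  exact h2

theorem grow {U : Finset V} (hU : (T.induce (U : Set V)).Connected) {v : V} (hv : v ∈ U)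
    (m : ℕ) (hm : m + 1 ≤ U.card) :
    ∃ U' : Finset V, U' ⊆ U ∧ U'.card = m + 1 ∧ (T.induce (U' : Set V)).Connected ∧ v ∈ U' := by
  induction m with
  | zero =>
    refine ⟨{v}, by simpa using hv, by simp, ?_, by simp⟩
    have : Subsingleton (({v} : Finset V) : Set V) := by
      refine ⟨fun x y => Subtype.ext ?_⟩
      have hx := x.2
      have hy := y.2
      simp only [Finset.coe_singleton, Set.mem_singleton_iff] at hx hy
      rw [hx, hy]
    have : Nonempty (({v} : Finset V) : Set V) := ⟨⟨v, by simp⟩⟩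
    exact (IsTree.of_subsingleton (G := T.induce (({v} : Finset V) : Set V))).connected
  | succ m ih =>
    obtain ⟨U', h1, h2, h3, h4⟩ := ih (by omega)
    have hne : U' ≠ U := by
      rintro rfl
      omega
    obtain ⟨a, ha, b, hb, hb', hab⟩ := crossing hU h1 ⟨v, h4⟩ hne
    refine ⟨insert b U', ?_, ?_, conn_insert h3 ha hab, Finset.mem_insert_of_mem h4⟩
    · intro z hz
      rcases Finset.mem_insert.1 hz with rfl | hz
      · exact hb
      · exact h1 hz
    · rw [Finset.card_insert_of_notMem hb', h2]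

variable [Fintype V]

/-- connected `k`-sets through `v` in the part of degree at most `Δ` -/
def F (T : SimpleGraph V) (k : ℕ) (v : V) (Δ : ℕ) : Finset (Finset V) :=
  Finset.univ.filter fun U => U.card = k ∧ (T.induce (U : Set V)).Connected ∧ v ∈ U ∧
    ∀ u ∈ U, dg T u ≤ Δ

theorem F_succ (T : SimpleGraph V) (m : ℕ) (v : V) (Δ : ℕ) :
    (F T (m + 2) v Δ).card ≤ (F T (m + 1) v Δ).card * ((m + 1) * Δ) := by
  have hsub : F T (m + 2) v Δ ⊆ (F T (m + 1) v Δ).biUnion (fun U' => U'.biUnion
      (fun w => (T.neighborSet w).toFinite.toFinset.image (fun u => insert u U'))) := by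
    intro U hU
    simp only [F, Finset.mem_filter, Finset.mem_univ, true_and] at hU
    obtain ⟨hc, hconn, hv, hdeg⟩ := hU
    obtain ⟨U', h1, h2, h3, h4⟩ := grow hconn hv m (by omega)
    have hne : U' ≠ U := by
      rintro rfl
      omega
    obtain ⟨a, ha, b, hb, hb', hab⟩ := crossing hconn h1 ⟨v, h4⟩ hne
    simp only [Finset.mem_biUnion, Finset.mem_image]
    refine ⟨U', ?_, a, ha, b, ?_, ?_⟩
    · simp only [F, Finset.mem_filter, Finset.mem_univ, true_and]
      exact ⟨h2, h3, h4, fun u hu => hdeg u (h1 hu)⟩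
    · rw [Set.Finite.mem_toFinset]
      exact hab
    · refine Finset.eq_of_subset_of_card_le ?_ ?_
      · intro z hz
        rcases Finset.mem_insert.1 hz with rfl | hz
        · exact hb
        · exact h1 hz
      · rw [Finset.card_insert_of_notMem hb', h2, hc]
  refine (Finset.card_le_card hsub).trans ?_
  refine Finset.card_biUnion_le_card_mul _ _ _ fun U' hU' => ?_
  simp only [F, Finset.mem_filter, Finset.mem_univ, true_and] at hU'
  obtain ⟨hc, _, _, hdeg⟩ := hU'
  rw [← hc]
  refine Finset.card_biUnion_le_card_mul _ _ _ fun w hw => ?_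
  refine Finset.card_image_le.trans ?_
  rw [← Set.ncard_eq_toFinset_card]
  exact hdeg w hw

theorem F_card (T : SimpleGraph V) (m : ℕ) (v : V) (Δ : ℕ) :
    (F T (m + 1) v Δ).card ≤ m.factorial * Δ ^ m := by
  induction m with
  | zero =>
    have : F T 1 v Δ ⊆ {{v}} := by
      intro U hU
      simp only [F, Finset.mem_filter, Finset.mem_univ, true_and] at hU
      obtain ⟨w, rfl⟩ := Finset.card_eq_one.1 hU.1
      have := Finset.mem_singleton.1 hU.2.2.1
      rw [this]
      simp
    simpa using Finset.card_le_card this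
  | succ m ih =>
    calc (F T (m + 2) v Δ).card ≤ (F T (m + 1) v Δ).card * ((m + 1) * Δ) := F_succ T m v Δ
      _ ≤ (m.factorial * Δ ^ m) * ((m + 1) * Δ) := by gcongr
      _ = (m + 1).factorial * Δ ^ (m + 1) := by
        rw [Nat.factorial_succ]
        ring

/-- the number of `(m+1)`-subtrees is at most `m! ∑ deg^m` -/
theorem KS_le (T : SimpleGraph V) (m : ℕ) :
    (KS T (m + 1)).ncard ≤ m.factorial * ∑ v, dg T v ^ m := by
  have hsub : KS T (m + 1) ⊆ ((Finset.univ.biUnion fun v => F T (m + 1) v (dg T v) :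
      Finset (Finset V)) : Set (Finset V)) := by
    rintro U ⟨hc, hconn⟩
    have hne : U.Nonempty := by
      rw [← Finset.card_pos]
      omega
    obtain ⟨v, hv, hmax⟩ := Finset.exists_max_image U (dg T) hne
    simp only [Finset.coe_biUnion, Finset.coe_univ, Set.mem_univ, Set.iUnion_true, Set.mem_iUnion]
    refine ⟨v, ?_⟩
    simp only [F, Finset.coe_filter, Finset.mem_univ, true_and, Set.mem_setOf_eq]
    exact ⟨hc, hconn, hv, hmax⟩
  calc (KS T (m + 1)).ncard ≤ _ := Set.ncard_le_ncard hsub (Set.toFinite _)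
    _ = (Finset.univ.biUnion fun v => F T (m + 1) v (dg T v)).card := Set.ncard_coe_finset _
    _ ≤ ∑ v, (F T (m + 1) v (dg T v)).card := Finset.card_biUnion_le
    _ ≤ ∑ v, m.factorial * dg T v ^ m := Finset.sum_le_sum fun v _ => F_card T m v _
    _ = _ := by rw [Finset.mul_sum]

end Growth

end Pool.Agent.Q164.UT
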